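import Mathlib
import Pool.Agent.Y671.WD.Abs
import Pool.Agent.Y671.WD.Mean

set_option autoImplicit false
open scoped InnerProductSpace
open Finset Filter Topology

namespace Pool.Agent.Q191.WX

open Pool.Agent.Y671.WD

variable {H : Type} [NormedAddCommGroup H] [InnerProductSpace ℂ H] [CompleteSpace H]

/-- the convex hull of the unitary conjugates -/
def hullOf (N : VonNeumannAlgebra H) (x : H →L[ℂ] H) : Set (H →L[ℂ] H) :=
  convexHull ℝ {T : H →L[ℂ] H | ∃ u ∈ unitary (H →L[ℂ] H), u ∈ N ∧ T = u * x * star u}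

/-- its closure in the weak operator topology -/
def CC (N : VonNeumannAlgebra H) (x : H →L[ℂ] H) : Set (H →L[ℂ] H) :=
  {z | ∀ (n : ℕ) (ξ η : Fin n → H) (ε : ℝ), 0 < ε →
    ∃ y ∈ hullOf N x, ∀ i : Fin n, ‖⟪η i, (y - z) (ξ i)⟫_ℂ‖ < ε}

lemma hull_conj {N : VonNeumannAlgebra H} {x u y : H →L[ℂ] H} (hu : u ∈ unitary (H →L[ℂ] H))
    (huN : u ∈ N) (hy : y ∈ hullOf N x) : u * y * star u ∈ hullOf N x := by
  have h1 : hullOf N x ⊆ {y | u * y * star u ∈ hullOf N x} := by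
    apply convexHull_min
    · rintro _ ⟨v, hv, hvN, rfl⟩
      refine subset_convexHull ℝ _ ⟨u * v, mul_mem hu hv, mul_mem huN hvN, ?_⟩
      rw [star_mul]
      simp only [mul_assoc]
    · intro y hy y' hy' a b ha hb hab
      simp only [Set.mem_ofPred_eq] at hy hy' ⊢
      have e1 : u * (a • y + b • y') * star u = a • (u * y * star u) + b • (u * y' * star u) := by
        rw [mul_add, add_mul, mul_smul_comm, mul_smul_comm, smul_mul_assoc, smul_mul_assoc]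
      rw [e1]
      exact convex_convexHull ℝ _ hy hy' ha hb hab
  exact h1 hy

lemma hull_sub_CC {N : VonNeumannAlgebra H} {x y : H →L[ℂ] H} (hy : y ∈ hullOf N x) : y ∈ CC N x := by
  intro n ξ η ε hε
  refine ⟨y, hy, fun i => ?_⟩
  rw [sub_self]
  simpa using hε

lemma CC_conj {N : VonNeumannAlgebra H} {x u z : H →L[ℂ] H} (hu : u ∈ unitary (H →L[ℂ] H))
    (huN : u ∈ N) (hz : z ∈ CC N x) : u * z * star u ∈ CC N x := by
  intro n ξ η ε hε
  obtain ⟨y, hy, hy'⟩ := hz n (fun i => (star u) (ξ i)) (fun i => (star u) (η i)) ε hε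
  refine ⟨u * y * star u, hull_conj hu huN hy, fun i => ?_⟩
  have h1 : ⟪η i, (u * y * star u - u * z * star u) (ξ i)⟫_ℂ =
      ⟪(star u) (η i), (y - z) ((star u) (ξ i))⟫_ℂ := by
    rw [ContinuousLinearMap.star_eq_adjoint, ContinuousLinearMap.adjoint_inner_left]
    congr 1
    simp only [ContinuousLinearMap.sub_apply, ContinuousLinearMap.mul_apply, map_sub]
  rw [h1]
  exact hy' i

lemma CC_convex (N : VonNeumannAlgebra H) (x : H →L[ℂ] H) : Convex ℝ (CC N x) := by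
  intro z hz z' hz' a b ha hb hab n ξ η ε hε
  obtain ⟨y, hy, hy1⟩ := hz n ξ η ε hε
  obtain ⟨y', hy', hy1'⟩ := hz' n ξ η ε hε
  refine ⟨a • y + b • y', convex_convexHull ℝ _ hy hy' ha hb hab, fun i => ?_⟩
  have e1 : ⟪η i, (a • y + b • y' - (a • z + b • z')) (ξ i)⟫_ℂ =
      (a : ℂ) * ⟪η i, (y - z) (ξ i)⟫_ℂ + (b : ℂ) * ⟪η i, (y' - z') (ξ i)⟫_ℂ := by
    have e2 : (a • y + b • y' - (a • z + b • z')) (ξ i) =
        (a : ℂ) • ((y - z) (ξ i)) + (b : ℂ) • ((y' - z') (ξ i)) := by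
      have e3 : a • y + b • y' - (a • z + b • z') = (a : ℂ) • (y - z) + (b : ℂ) • (y' - z') := by
        have ea : ∀ (t : ℝ) (w : H →L[ℂ] H), t • w = (t : ℂ) • w := fun t w => rfl
        rw [ea, ea, ea, ea, smul_sub, smul_sub]
        abel
      rw [e3]
      rfl
    rw [e2, inner_add_right, inner_smul_right, inner_smul_right]
  rw [e1]
  have h1 := hy1 i
  have h2 := hy1' i
  have h3 : ‖(a : ℂ) * ⟪η i, (y - z) (ξ i)⟫_ℂ + (b : ℂ) * ⟪η i, (y' - z') (ξ i)⟫_ℂ‖ ≤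
      a * ‖⟪η i, (y - z) (ξ i)⟫_ℂ‖ + b * ‖⟪η i, (y' - z') (ξ i)⟫_ℂ‖ := by
    refine (norm_add_le _ _).trans ?_
    rw [norm_mul, norm_mul, Complex.norm_real, Complex.norm_real, Real.norm_eq_abs,
      Real.norm_eq_abs, abs_of_nonneg ha, abs_of_nonneg hb]
  refine h3.trans_lt ?_
  rcases ha.eq_or_lt with ha0 | ha0
  · have hb1 : b = 1 := by linarith
    rw [← ha0, hb1]
    linarith
  · have h4 : a * ‖⟪η i, (y - z) (ξ i)⟫_ℂ‖ < a * ε := mul_lt_mul_of_pos_left h1 ha0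
    have h5 : b * ‖⟪η i, (y' - z') (ξ i)⟫_ℂ‖ ≤ b * ε := mul_le_mul_of_nonneg_left h2.le hb
    have h6 : a * ε + b * ε = ε := by rw [← add_mul, hab, one_mul]
    linarith

lemma CC_trans {N : VonNeumannAlgebra H} {x z z' : H →L[ℂ] H} (hz : z ∈ CC N x)
    (hz' : z' ∈ CC N z) : z' ∈ CC N x := by
  have h1 : hullOf N z ⊆ CC N x := by
    apply convexHull_min
    · rintro _ ⟨u, hu, huN, rfl⟩
      exact CC_conj hu huN hz
    · exact CC_convex N x
  intro n ξ η ε hε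
  obtain ⟨y, hy, hy1⟩ := hz' n ξ η (ε / 2) (by positivity)
  obtain ⟨y', hy', hy1'⟩ := h1 hy n ξ η (ε / 2) (by positivity)
  refine ⟨y', hy', fun i => ?_⟩
  have e1 : ⟪η i, (y' - z') (ξ i)⟫_ℂ = ⟪η i, (y' - y) (ξ i)⟫_ℂ + ⟪η i, (y - z') (ξ i)⟫_ℂ := by
    rw [← inner_add_right]
    congr 1
    simp only [ContinuousLinearMap.sub_apply]
    abel
  rw [e1]
  refine (norm_add_le _ _).trans_lt ?_
  linarith [hy1 i, hy1' i]

lemma CC_mono {P Q : VonNeumannAlgebra H} (h : ∀ p ∈ P, p ∈ Q) {x z : H →L[ℂ] H}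
    (hz : z ∈ CC P x) : z ∈ CC Q x := by
  intro n ξ η ε hε
  obtain ⟨y, hy, hy1⟩ := hz n ξ η ε hε
  refine ⟨y, convexHull_mono ?_ hy, hy1⟩
  rintro _ ⟨u, hu, huN, rfl⟩
  exact ⟨u, hu, h u huN, rfl⟩

lemma norm_unitary_le {u : H →L[ℂ] H} (hu : u ∈ unitary (H →L[ℂ] H)) : ‖u‖ ≤ 1 := by
  refine u.opNorm_le_bound zero_le_one fun η => ?_
  have h1 : ⟪u η, u η⟫_ℂ = ⟪η, η⟫_ℂ := by
    rw [← ContinuousLinearMap.adjoint_inner_left, ← ContinuousLinearMap.star_eq_adjoint]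
    have := Unitary.star_mul_self_of_mem hu
    have h2 : (star u) (u η) = η := by
      have := congrArg (fun T : H →L[ℂ] H => T η) this
      exact this
    rw [h2]
  rw [inner_self_eq_norm_sq_to_K, inner_self_eq_norm_sq_to_K] at h1
  have h3 : ‖u η‖ ^ 2 = ‖η‖ ^ 2 := by exact_mod_cast h1
  have h4 := (pow_left_inj₀ (norm_nonneg _) (norm_nonneg _) (by norm_num)).1 h3
  rw [h4, one_mul]

lemma norm_conj_le {u : H →L[ℂ] H} (hu : u ∈ unitary (H →L[ℂ] H)) (a : H →L[ℂ] H) :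
    ‖u * a * star u‖ ≤ ‖a‖ := by
  have h1 := norm_unitary_le hu
  calc ‖u * a * star u‖ ≤ ‖u‖ * ‖a‖ * ‖star u‖ :=
        (norm_mul_le _ _).trans (mul_le_mul_of_nonneg_right (norm_mul_le _ _) (norm_nonneg _))
    _ ≤ 1 * ‖a‖ * 1 := by
        rw [norm_star]
        gcongr
    _ = ‖a‖ := by ring

end Pool.Agent.Q191.WX
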