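import Mathlib
import Pool.Agent.Q191.WX.Hull

set_option autoImplicit false
open scoped InnerProductSpace
open Finset Filter Topology

namespace Pool.Agent.Q191.WX

open Pool.Agent.Y671.WD

variable {H : Type} [NormedAddCommGroup H] [InnerProductSpace ℂ H] [CompleteSpace H]
variable {K : Type}

lemma mean_isMean {m : (K → ℝ) → ℝ} (hm : Mean m) : IsMean fun f : LI K => m f := by
  refine ⟨fun f f' => ?_, fun a f => ?_, fun f h => ?_, fun f h => ?_⟩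
  · exact hm.1 f f' ⟨‖f‖, abs_le_norm f⟩ ⟨‖f'‖, abs_le_norm f'⟩
  · exact hm.2.1 a f ⟨‖f‖, abs_le_norm f⟩
  · have h1 : (f : K → ℝ) = fun _ => 1 := funext h
    change m f = 1
    rw [h1]
    exact hm.2.2.1
  · exact hm.2.2.2 f ⟨‖f‖, abs_le_norm f⟩ h

/-- the complex extension of a mean -/
noncomputable def cm (m : (K → ℝ) → ℝ) (f : K → ℂ) : ℂ :=
  (m (fun k => (f k).re) : ℂ) + (m (fun k => (f k).im) : ℂ) * Complex.I

lemma bd_re {f : K → ℂ} {C : ℝ} (h : ∀ k, ‖f k‖ ≤ C) : Bd fun k => (f k).re :=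
  ⟨C, fun k => (Complex.abs_re_le_norm _).trans (h k)⟩

lemma bd_im {f : K → ℂ} {C : ℝ} (h : ∀ k, ‖f k‖ ≤ C) : Bd fun k => (f k).im :=
  ⟨C, fun k => (Complex.abs_im_le_norm _).trans (h k)⟩

lemma mean_abs_le {m : (K → ℝ) → ℝ} (hm : Mean m) {f : K → ℝ} {C : ℝ} (h : ∀ k, |f k| ≤ C) :
    |m f| ≤ C := by
  have h0 := mean_isMean hm
  have h1 : m f = (fun f : LI K => m f) (mkB f C h) := rfl
  rw [h1, abs_le]
  exact ⟨h0.ge fun g => (abs_le.1 (h g)).1, h0.le fun g => (abs_le.1 (h g)).2⟩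

lemma cm_add {m : (K → ℝ) → ℝ} (hm : Mean m) {f f' : K → ℂ} {C C' : ℝ} (h : ∀ k, ‖f k‖ ≤ C)
    (h' : ∀ k, ‖f' k‖ ≤ C') : cm m (fun k => f k + f' k) = cm m f + cm m f' := by
  unfold cm
  have h1 := hm.1 _ _ (bd_re h) (bd_re h')
  have h2 := hm.1 _ _ (bd_im h) (bd_im h')
  simp only [Complex.add_re, Complex.add_im]
  rw [h1, h2]
  push_cast
  ring

lemma cm_smul {m : (K → ℝ) → ℝ} (hm : Mean m) {f : K → ℂ} {C : ℝ} (h : ∀ k, ‖f k‖ ≤ C) (c : ℂ) :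
    cm m (fun k => c * f k) = c * cm m f := by
  unfold cm
  have hb : ∀ (a : ℝ) {g : K → ℝ}, Bd g → Bd fun k => a * g k := by
    rintro a g ⟨D, hD⟩
    refine ⟨|a| * D, fun k => ?_⟩
    rw [abs_mul]
    exact mul_le_mul_of_nonneg_left (hD k) (abs_nonneg _)
  have h1 : m (fun k => (c * f k).re) =
      c.re * m (fun k => (f k).re) + (-c.im) * m (fun k => (f k).im) := by
    rw [← hm.2.1 _ _ (bd_re h), ← hm.2.1 _ _ (bd_im h), ← hm.1 _ _ (hb _ (bd_re h)) (hb _ (bd_im h))]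
    congr 1
    funext k
    rw [Complex.mul_re]
    ring
  have h2 : m (fun k => (c * f k).im) =
      c.re * m (fun k => (f k).im) + c.im * m (fun k => (f k).re) := by
    rw [← hm.2.1 _ _ (bd_re h), ← hm.2.1 _ _ (bd_im h), ← hm.1 _ _ (hb _ (bd_im h)) (hb _ (bd_re h))]
    congr 1
  rw [h1, h2]
  apply Complex.ext
  · simp
    try ring
  · simp
    try ring

lemma norm_cm_le {m : (K → ℝ) → ℝ} (hm : Mean m) {f : K → ℂ} {C : ℝ} (h : ∀ k, ‖f k‖ ≤ C) :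
    ‖cm m f‖ ≤ 2 * C := by
  unfold cm
  refine (norm_add_le _ _).trans ?_
  rw [norm_mul, Complex.norm_I, mul_one, Complex.norm_real, Complex.norm_real, Real.norm_eq_abs,
    Real.norm_eq_abs]
  have h1 := mean_abs_le hm (f := fun k => (f k).re) (C := C)
    (fun k => (Complex.abs_re_le_norm _).trans (h k))
  have h2 := mean_abs_le hm (f := fun k => (f k).im) (C := C)
    (fun k => (Complex.abs_im_le_norm _).trans (h k))
  linarith

/-- averages of bounded families of operators -/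
lemma exists_avg {m : (K → ℝ) → ℝ} (hm : Mean m) (T : K → H →L[ℂ] H) {C : ℝ}
    (hC : ∀ k, ‖T k‖ ≤ C) :
    ∃ Z : H →L[ℂ] H, ∀ ξ η : H, ⟪Z ξ, η⟫_ℂ = cm m fun k => ⟪T k ξ, η⟫_ℂ := by
  have hb : ∀ ξ η : H, ∀ k, ‖⟪T k ξ, η⟫_ℂ‖ ≤ C * ‖ξ‖ * ‖η‖ := by
    intro ξ η k
    refine (norm_inner_le_norm _ _).trans ?_
    refine mul_le_mul_of_nonneg_right ?_ (norm_nonneg _)
    exact ((T k).le_opNorm ξ).trans (mul_le_mul_of_nonneg_right (hC k) (norm_nonneg _))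
  let B0 : H →ₛₗ[starRingEnd ℂ] H →ₗ[ℂ] ℂ := LinearMap.mk₂'ₛₗ (starRingEnd ℂ) (RingHom.id ℂ)
    (fun ξ η => cm m fun k => ⟪T k ξ, η⟫_ℂ)
    (by
      intro ξ ξ' η
      simp only [map_add, inner_add_left]
      exact cm_add hm (hb ξ η) (hb ξ' η))
    (by
      intro c ξ η
      simp only [map_smul, inner_smul_left]
      exact cm_smul hm (hb ξ η) _)
    (by
      intro ξ η η'
      simp only [inner_add_right]
      exact cm_add hm (hb ξ η) (hb ξ η'))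
    (by
      intro c ξ η
      simp only [inner_smul_right]
      exact cm_smul hm (hb ξ η) _)
  let B : H →L⋆[ℂ] H →L[ℂ] ℂ := LinearMap.mkContinuous₂ B0 (2 * C) (by
    intro ξ η
    refine (norm_cm_le hm (hb ξ η)).trans (le_of_eq ?_)
    ring)
  refine ⟨InnerProductSpace.continuousLinearMapOfBilin B, fun ξ η => ?_⟩
  rw [InnerProductSpace.continuousLinearMapOfBilin_apply]
  rfl

/-- the average commutes with everything that commutes with the family -/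
lemma avg_comm {m : (K → ℝ) → ℝ} {T : K → H →L[ℂ] H} {Z : H →L[ℂ] H}
    (hZ : ∀ ξ η : H, ⟪Z ξ, η⟫_ℂ = cm m fun k => ⟪T k ξ, η⟫_ℂ) {r : H →L[ℂ] H}
    (hr : ∀ k, r * T k = T k * r) : r * Z = Z * r := by
  ext ξ
  refine ext_inner_right ℂ fun η => ?_
  change ⟪r (Z ξ), η⟫_ℂ = ⟪Z (r ξ), η⟫_ℂ
  rw [hZ, ← ContinuousLinearMap.adjoint_inner_right, hZ]
  congr 1
  funext k
  rw [ContinuousLinearMap.adjoint_inner_right]
  have h1 := congrArg (fun S : H →L[ℂ] H => S ξ) (hr k)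
  change r (T k ξ) = T k (r ξ) at h1
  rw [h1]

/-- the average is in the weak closure of the convex hull -/
lemma avg_hull {m : (K → ℝ) → ℝ} (hm : Mean m) {T : K → H →L[ℂ] H} {C : ℝ}
    (hC : ∀ k, ‖T k‖ ≤ C) {Z : H →L[ℂ] H}
    (hZ : ∀ ξ η : H, ⟪Z ξ, η⟫_ℂ = cm m fun k => ⟪T k ξ, η⟫_ℂ) (n : ℕ) (ξ η : Fin n → H) (ε : ℝ)
    (hε : 0 < ε) : ∃ y ∈ convexHull ℝ (Set.range T), ∀ i, ‖⟪η i, (y - Z) (ξ i)⟫_ℂ‖ < ε := by
  have hb : ∀ ξ η : H, ∀ k, ‖⟪T k ξ, η⟫_ℂ‖ ≤ C * ‖ξ‖ * ‖η‖ := by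
    intro ξ η k
    refine (norm_inner_le_norm _ _).trans ?_
    refine mul_le_mul_of_nonneg_right ?_ (norm_nonneg _)
    exact ((T k).le_opNorm ξ).trans (mul_le_mul_of_nonneg_right (hC k) (norm_nonneg _))
  let Φ : (H →L[ℂ] H) →ₗ[ℝ] (Fin n ⊕ Fin n → ℝ) :=
    { toFun := fun S i => Sum.elim (fun i => (⟪S (ξ i), η i⟫_ℂ).re)
        (fun i => (⟪S (ξ i), η i⟫_ℂ).im) i
      map_add' := by
        intro S S'
        funext i
        rcases i with i | i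
        · change (⟪(S + S') (ξ i), η i⟫_ℂ).re = (⟪S (ξ i), η i⟫_ℂ).re + (⟪S' (ξ i), η i⟫_ℂ).re
          rw [← Complex.add_re, ← inner_add_left]
          rfl
        · change (⟪(S + S') (ξ i), η i⟫_ℂ).im = (⟪S (ξ i), η i⟫_ℂ).im + (⟪S' (ξ i), η i⟫_ℂ).im
          rw [← Complex.add_im, ← inner_add_left]
          rfl
      map_smul' := by
        intro c S
        funext i
        rcases i with i | i
        · change (⟪(c • S) (ξ i), η i⟫_ℂ).re = c * (⟪S (ξ i), η i⟫_ℂ).re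
          have h1 : (c • S) (ξ i) = (c : ℂ) • S (ξ i) := rfl
          rw [h1, inner_smul_left]
          simp
        · change (⟪(c • S) (ξ i), η i⟫_ℂ).im = c * (⟪S (ξ i), η i⟫_ℂ).im
          have h1 : (c • S) (ξ i) = (c : ℂ) • S (ξ i) := rfl
          rw [h1, inner_smul_left]
          simp }
  let v : Fin n ⊕ Fin n → LI K := fun i => Sum.rec
    (fun i => mkB (fun k => (⟪T k (ξ i), η i⟫_ℂ).re) (C * ‖ξ i‖ * ‖η i‖)
      fun k => (Complex.abs_re_le_norm _).trans (hb _ _ k))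
    (fun i => mkB (fun k => (⟪T k (ξ i), η i⟫_ℂ).im) (C * ‖ξ i‖ * ‖η i‖)
      fun k => (Complex.abs_im_le_norm _).trans (hb _ _ k)) i
  have h1 := mem_closure_of_mean v (mean_isMean hm)
  have h2 : (Set.range fun g => fun i => v i g) = Φ '' Set.range T := by
    ext z
    constructor
    · rintro ⟨k, rfl⟩
      refine ⟨T k, ⟨k, rfl⟩, ?_⟩
      funext i
      rcases i with i | i <;> rfl
    · rintro ⟨_, ⟨k, rfl⟩, rfl⟩
      refine ⟨k, ?_⟩
      funext i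
      rcases i with i | i <;> rfl
  rw [h2, ← LinearMap.image_convexHull] at h1
  obtain ⟨_, ⟨y, hy, rfl⟩, hyd⟩ := Metric.mem_closure_iff.1 h1 (ε / 2) (by positivity)
  refine ⟨y, hy, fun i => ?_⟩
  rw [dist_pi_lt_iff (by positivity)] at hyd
  have hre := hyd (Sum.inl i)
  have him := hyd (Sum.inr i)
  rw [Real.dist_eq] at hre him
  change |m (fun k => (⟪T k (ξ i), η i⟫_ℂ).re) - (⟪y (ξ i), η i⟫_ℂ).re| < ε / 2 at hre
  change |m (fun k => (⟪T k (ξ i), η i⟫_ℂ).im) - (⟪y (ξ i), η i⟫_ℂ).im| < ε / 2 at him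
  rw [norm_inner_symm]
  have h3 : ⟪(y - Z) (ξ i), η i⟫_ℂ = ⟪y (ξ i), η i⟫_ℂ - cm m fun k => ⟪T k (ξ i), η i⟫_ℂ := by
    rw [← hZ, ← inner_sub_left]
    rfl
  rw [h3]
  refine (Complex.norm_le_abs_re_add_abs_im _).trans_lt ?_
  have h4 : (⟪y (ξ i), η i⟫_ℂ - cm m fun k => ⟪T k (ξ i), η i⟫_ℂ).re =
      (⟪y (ξ i), η i⟫_ℂ).re - m (fun k => (⟪T k (ξ i), η i⟫_ℂ).re) := by
    simp [cm]
  have h5 : (⟪y (ξ i), η i⟫_ℂ - cm m fun k => ⟪T k (ξ i), η i⟫_ℂ).im =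
      (⟪y (ξ i), η i⟫_ℂ).im - m (fun k => (⟪T k (ξ i), η i⟫_ℂ).im) := by
    simp [cm]
  rw [h4, h5, abs_sub_comm, abs_sub_comm (⟪y (ξ i), η i⟫_ℂ).im]
  linarith

end Pool.Agent.Q191.WX
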