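import Mathlib
import Pool.Agent.Q191.WX.Avg

set_option autoImplicit false
open scoped InnerProductSpace
open Finset Filter Topology

namespace Pool.Agent.Q191.WX

open Pool.Agent.Y671.WD

variable {H : Type} [NormedAddCommGroup H] [InnerProductSpace ℂ H] [CompleteSpace H]

section Ult

variable {ι : Type}

lemma ult_lim (U : Ultrafilter ι) {f : ι → ℝ} (hf : Bd f) : ∃ a, Tendsto f U (𝓝 a) := by
  obtain ⟨C, hC⟩ := hf
  have h1 : ((U.map f : Ultrafilter ℝ) : Filter ℝ) ≤ 𝓟 (Set.Icc (-C) C) := by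
    rw [le_principal_iff, Ultrafilter.coe_map]
    exact Filter.mem_map.2 (Filter.univ_mem' fun k => abs_le.1 (hC k))
  obtain ⟨a, -, ha⟩ := isCompact_Icc.ultrafilter_le_nhds (U.map f) h1
  exact ⟨a, ha⟩

open Classical in
/-- the limit along an ultrafilter -/
noncomputable def ul (U : Ultrafilter ι) (f : ι → ℝ) : ℝ :=
  if h : ∃ a, Tendsto f U (𝓝 a) then h.choose else 0

lemma ul_spec (U : Ultrafilter ι) {f : ι → ℝ} (hf : Bd f) : Tendsto f U (𝓝 (ul U f)) := by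
  unfold ul
  rw [dif_pos (ult_lim U hf)]
  exact (ult_lim U hf).choose_spec

lemma ul_mean (U : Ultrafilter ι) : Mean (ul U) := by
  refine ⟨fun f f' hf hf' => ?_, fun a f hf => ?_, ?_, fun f hf h => ?_⟩
  · have h1 : Bd fun g => f g + f' g := by
      obtain ⟨C, hC⟩ := hf
      obtain ⟨C', hC'⟩ := hf'
      exact ⟨C + C', fun g => (abs_add_le _ _).trans (add_le_add (hC g) (hC' g))⟩
    exact tendsto_nhds_unique (ul_spec U h1) ((ul_spec U hf).add (ul_spec U hf'))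
  · have h1 : Bd fun g => a * f g := by
      obtain ⟨C, hC⟩ := hf
      refine ⟨|a| * C, fun g => ?_⟩
      rw [abs_mul]
      exact mul_le_mul_of_nonneg_left (hC g) (abs_nonneg _)
    exact tendsto_nhds_unique (ul_spec U h1) ((ul_spec U hf).const_mul a)
  · have h1 : Bd fun _ : ι => (1 : ℝ) := ⟨1, fun g => by simp⟩
    exact tendsto_nhds_unique (ul_spec U h1) tendsto_const_nhds
  · exact ge_of_tendsto' (ul_spec U hf) h

lemma ul_congr (U : Ultrafilter ι) {f f' : ι → ℝ} (hf : Bd f) (hf' : Bd f')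
    (h : ∀ᶠ k in (U : Filter ι), f k = f' k) : ul U f = ul U f' :=
  tendsto_nhds_unique (ul_spec U hf) ((ul_spec U hf').congr' (h.mono fun _ hk => hk.symm))

end Ult

lemma CC_closed {N : VonNeumannAlgebra H} {x z' : H →L[ℂ] H}
    (h : ∀ (n : ℕ) (ξ η : Fin n → H) (ε : ℝ), 0 < ε →
      ∃ y ∈ CC N x, ∀ i : Fin n, ‖⟪η i, (y - z') (ξ i)⟫_ℂ‖ < ε) : z' ∈ CC N x := by
  intro n ξ η ε hε
  obtain ⟨y, hy, hy1⟩ := h n ξ η (ε / 2) (by positivity)
  obtain ⟨y', hy', hy1'⟩ := hy n ξ η (ε / 2) (by positivity)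
  refine ⟨y', hy', fun i => ?_⟩
  have e1 : ⟪η i, (y' - z') (ξ i)⟫_ℂ = ⟪η i, (y' - y) (ξ i)⟫_ℂ + ⟪η i, (y - z') (ξ i)⟫_ℂ := by
    rw [← inner_add_right]
    congr 1
    simp only [ContinuousLinearMap.sub_apply]
    abel
  rw [e1]
  refine (norm_add_le _ _).trans_lt ?_
  linarith [hy1 i, hy1' i]

lemma hull_norm {N : VonNeumannAlgebra H} {x y : H →L[ℂ] H} (hy : y ∈ hullOf N x) :
    ‖y‖ ≤ ‖x‖ := by
  have : hullOf N x ⊆ {y | ‖y‖ ≤ ‖x‖} := by
    apply convexHull_min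
    · rintro _ ⟨u, hu, huN, rfl⟩
      exact norm_conj_le hu x
    · rintro b hb c hc s t hs ht hst
      simp only [Set.mem_ofPred_eq] at hb hc ⊢
      calc ‖s • b + t • c‖ ≤ s * ‖b‖ + t * ‖c‖ := by
            refine (norm_add_le _ _).trans ?_
            rw [norm_smul, norm_smul, Real.norm_eq_abs,
              Real.norm_eq_abs, abs_of_nonneg hs, abs_of_nonneg ht]
        _ ≤ s * ‖x‖ + t * ‖x‖ := by gcongr
        _ = ‖x‖ := by rw [← add_mul, hst, one_mul]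
  exact this hy

lemma CC_norm {N : VonNeumannAlgebra H} {x z : H →L[ℂ] H} (hz : z ∈ CC N x) : ‖z‖ ≤ ‖x‖ := by
  have h1 : ∀ ξ η : H, ‖⟪η, z ξ⟫_ℂ‖ ≤ ‖η‖ * (‖x‖ * ‖ξ‖) := by
    intro ξ η
    refine le_of_forall_pos_le_add fun ε hε => ?_
    obtain ⟨y, hy, hy'⟩ := hz 1 (fun _ => ξ) (fun _ => η) ε hε
    have h2 := hy' 0
    have h3 : ⟪η, z ξ⟫_ℂ = ⟪η, y ξ⟫_ℂ - ⟪η, (y - z) ξ⟫_ℂ := by
      rw [← inner_sub_right]
      congr 1
      simp only [ContinuousLinearMap.sub_apply]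
      abel
    rw [h3]
    refine (norm_sub_le _ _).trans (add_le_add ?_ h2.le)
    refine (norm_inner_le_norm _ _).trans (mul_le_mul_of_nonneg_left ?_ (norm_nonneg _))
    exact (y.le_opNorm _).trans (mul_le_mul_of_nonneg_right (hull_norm hy) (norm_nonneg _))
  refine z.opNorm_le_bound (norm_nonneg _) fun ξ => ?_
  have h2 := h1 ξ (z ξ)
  rw [inner_self_eq_norm_sq_to_K] at h2
  have h3 : ‖z ξ‖ * ‖z ξ‖ ≤ ‖z ξ‖ * (‖x‖ * ‖ξ‖) := by
    refine le_trans (le_of_eq ?_) h2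
    simp [sq]
  rcases (norm_nonneg (z ξ)).eq_or_lt with h0 | h0
  · rw [← h0]
    positivity
  · exact le_of_mul_le_mul_left h3 h0

/-- passing to the limit over a directed union -/
lemma stepC {M Q : VonNeumannAlgebra H} {ι : Type} [Preorder ι] [Nonempty ι]
    [IsDirected ι (· ≤ ·)] {P : ι → VonNeumannAlgebra H}
    (hmon : ∀ i j, i ≤ j → ∀ p ∈ P i, p ∈ P j) (hsub : ∀ i, ∀ p ∈ P i, p ∈ Q)
    (hgen : ∀ T : H →L[ℂ] H, (∀ i, ∀ p ∈ P i, T * p = p * T) → ∀ q ∈ Q, T * q = q * T)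
    {x : H →L[ℂ] H} (h : ∀ i, ∃ y ∈ M, y ∈ CC (P i) x ∧ ∀ a ∈ P i, y * a = a * y) :
    ∃ z ∈ M, z ∈ CC Q x ∧ ∀ q ∈ Q, z * q = q * z := by
  choose T hTM hTC hTP using h
  have hC : ∀ k, ‖T k‖ ≤ ‖x‖ := fun k => CC_norm (hTC k)
  set U : Ultrafilter ι := Ultrafilter.of atTop with hU
  have hm := ul_mean U
  obtain ⟨Z, hZ⟩ := exists_avg hm T hC
  have hb : ∀ ξ η : H, ∀ k, ‖⟪T k ξ, η⟫_ℂ‖ ≤ ‖x‖ * ‖ξ‖ * ‖η‖ := by
    intro ξ η k
    refine (norm_inner_le_norm _ _).trans ?_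
    refine mul_le_mul_of_nonneg_right ?_ (norm_nonneg _)
    exact ((T k).le_opNorm ξ).trans (mul_le_mul_of_nonneg_right (hC k) (norm_nonneg _))
  refine ⟨Z, ?_, ?_, ?_⟩
  · rw [← M.commutant_commutant, VonNeumannAlgebra.mem_commutant_iff]
    intro r hr
    exact avg_comm hZ fun g => (VonNeumannAlgebra.mem_commutant_iff.1 hr _ (hTM g)).symm
  · refine CC_closed fun n ξ η ε hε => ?_
    obtain ⟨z, hz, hz'⟩ := avg_hull hm hC hZ n ξ η ε hε
    refine ⟨z, ?_, hz'⟩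
    have h1 : convexHull ℝ (Set.range T) ⊆ CC Q x := by
      apply convexHull_min
      · rintro _ ⟨g, rfl⟩
        exact CC_mono (hsub g) (hTC g)
      · exact CC_convex Q x
    exact h1 hz
  · refine hgen Z fun i p hp => ?_
    ext ξ
    refine ext_inner_right ℂ fun η => ?_
    change ⟪Z (p ξ), η⟫_ℂ = ⟪p (Z ξ), η⟫_ℂ
    rw [hZ, ← ContinuousLinearMap.adjoint_inner_right, hZ]
    have h2 : ∀ᶠ k in (U : Filter ι), ⟪T k (p ξ), η⟫_ℂ =
        ⟪T k ξ, (ContinuousLinearMap.adjoint p) η⟫_ℂ := by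
      have h3 : ∀ᶠ k in (atTop : Filter ι), i ≤ k := eventually_ge_atTop i
      have h4 : (U : Filter ι) ≤ atTop := Ultrafilter.of_le _
      refine (Filter.Eventually.filter_mono h4 h3).mono fun k hk => ?_
      rw [ContinuousLinearMap.adjoint_inner_right]
      have h1 := congrArg (fun S : H →L[ℂ] H => S ξ) (hTP k p (hmon i k hk p hp))
      change T k (p ξ) = p (T k ξ) at h1
      rw [h1]
    unfold cm
    rw [ul_congr U (bd_re (hb (p ξ) η)) (bd_re (hb ξ _)) (h2.mono fun k hk => by rw [hk]),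
      ul_congr U (bd_im (hb (p ξ) η)) (bd_im (hb ξ _)) (h2.mono fun k hk => by rw [hk])]

end Pool.Agent.Q191.WX
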