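import Mathlib
import Pool.Agent.Y671.WD.Abs

/-!
Amenable and state preserving extensions of von Neumann algebras.
-/

set_option autoImplicit false
open scoped InnerProductSpace

namespace Pool.Agent.Q191.WX

open Pool.Agent.Y671.WD

variable {H : Type} [NormedAddCommGroup H] [InnerProductSpace ℂ H] [CompleteSpace H]

/-- `Q` is an amenable extension of `P`: it contains `P` and it is generated, as a von Neumann
algebra, by `P` and unitaries `v g`, `g ∈ G`, which normalize `P` and satisfy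
`v g * v h ∈ P * v (g * h)`, where `G` is an amenable (discrete) group -/
def AmStep (P Q : VonNeumannAlgebra H) : Prop :=
  (∀ p ∈ P, p ∈ Q) ∧ ∃ (G : Type) (_ : Group G) (v : G → H →L[ℂ] H), Amen G ∧
    (∀ g, v g ∈ unitary (H →L[ℂ] H) ∧ v g ∈ Q) ∧
    (∀ g, ∀ p ∈ P, v g * p * star (v g) ∈ P ∧ star (v g) * p * v g ∈ P) ∧
    (∀ g h, ∃ w ∈ P, v g * v h = w * v (g * h)) ∧
    ∀ T : H →L[ℂ] H, (∀ p ∈ P, T * p = p * T) → (∀ g, T * v g = v g * T) →
      ∀ q ∈ Q, T * q = q * T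

/-- `Q` is a state preserving extension of `P`: it contains `P` and it is generated, as a von Neumann
algebra, by `P` and a semigroup `G` of unitaries which normalize `P` and which centralize, in `A`, the
vector functional of some vector of `S` -/
def InvStep (S : Set H) (A P Q : VonNeumannAlgebra H) : Prop :=
  (∀ p ∈ P, p ∈ Q) ∧ ∃ Ω ∈ S, ∃ G : Set (H →L[ℂ] H), 1 ∈ G ∧ (∀ u ∈ G, ∀ w ∈ G, u * w ∈ G) ∧
    (∀ u ∈ G, u ∈ unitary (H →L[ℂ] H) ∧ u ∈ Q) ∧
    (∀ u ∈ G, ∀ p ∈ P, star u * p * u ∈ P) ∧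
    (∀ u ∈ G, ∀ x ∈ A, ⟪Ω, (u * x) Ω⟫_ℂ = ⟪Ω, (x * u) Ω⟫_ℂ) ∧
    ∀ T : H →L[ℂ] H, (∀ p ∈ P, T * p = p * T) → (∀ u ∈ G, T * u = u * T) →
      ∀ q ∈ Q, T * q = q * T

/-- `Q` is generated, as a von Neumann algebra, by the upwards directed family `P i` -/
def IsUnion {ι : Type} [Preorder ι] (P : ι → VonNeumannAlgebra H) (Q : VonNeumannAlgebra H) : Prop :=
  (∀ i j, i ≤ j → ∀ p ∈ P i, p ∈ P j) ∧ (∀ i, ∀ p ∈ P i, p ∈ Q) ∧
    ∀ T : H →L[ℂ] H, (∀ i, ∀ p ∈ P i, T * p = p * T) → ∀ q ∈ Q, T * q = q * T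

/-- the smallest class of von Neumann algebras which contains the scalars and is closed under
amenable extensions, state preserving extensions and upwards directed unions -/
inductive Ext (S : Set H) (A : VonNeumannAlgebra H) : VonNeumannAlgebra H → Prop
  | scalars {P : VonNeumannAlgebra H} : (∀ p ∈ P, ∃ c : ℂ, p = c • (1 : H →L[ℂ] H)) → Ext S A P
  | amen {P Q : VonNeumannAlgebra H} : Ext S A P → AmStep P Q → Ext S A Q
  | inv {P Q : VonNeumannAlgebra H} : Ext S A P → InvStep S A P Q → Ext S A Q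
  | union {ι : Type} [Preorder ι] [Nonempty ι] [IsDirected ι (· ≤ ·)]
      {P : ι → VonNeumannAlgebra H} {Q : VonNeumannAlgebra H} :
      (∀ i, Ext S A (P i)) → IsUnion P Q → Ext S A Q

/-- the vectors which are cyclic for the commutant of `M`, i.e. whose vector functional is faithful
on `M` -/
def SepVec (M : VonNeumannAlgebra H) : Set H :=
  {Ω | Dense {ξ : H | ∃ r ∈ M.commutant, ξ = r Ω}}

/-- those which are moreover invariant under `E` -/
def InvVec (M : VonNeumannAlgebra H) (E : (H →L[ℂ] H) → (H →L[ℂ] H)) : Set H :=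
  {Ω | Ω ∈ SepVec M ∧ ∀ x ∈ M, ⟪Ω, (E x) Ω⟫_ℂ = ⟪Ω, x Ω⟫_ℂ}

/-- `E` maps `M` to `N` and is `N`-bimodular -/
def Bimod (N M : VonNeumannAlgebra H) (E : (H →L[ℂ] H) → (H →L[ℂ] H)) : Prop :=
  ∀ x ∈ M, E x ∈ N ∧ ∀ a ∈ N, E (a * x) = a * E x ∧ E (x * a) = E x * a

end Pool.Agent.Q191.WX
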