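import Mathlib
import Pool.Agent.Q191.WX.Defs
import Pool.Agent.Q191.WX.Union
import Pool.Agent.Y671.WD.Trace

set_option autoImplicit false
open scoped InnerProductSpace
open Finset Filter Topology

namespace Pool.Agent.Q191.WX

open Pool.Agent.Y671.WD

variable {H : Type} [NormedAddCommGroup H] [InnerProductSpace ℂ H] [CompleteSpace H]

/-- averaging over an amenable extension -/
lemma stepB {M P Q : VonNeumannAlgebra H} (hPQ : AmStep P Q) (hQM : ∀ q ∈ Q, q ∈ M)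
    {y : H →L[ℂ] H} (hyM : y ∈ M) (hyP : ∀ p ∈ P, y * p = p * y) :
    ∃ z ∈ M, z ∈ CC Q y ∧ ∀ q ∈ Q, z * q = q * z := by
  obtain ⟨hsub, G, _, v, ⟨m, hm, hinv⟩, hv, hnorm, hmul, hgen⟩ := hPQ
  have hvs : ∀ g, v g * star (v g) = 1 := fun g => Unitary.mul_star_self_of_mem (hv g).1
  have hsv : ∀ g, star (v g) * v g = 1 := fun g => Unitary.star_mul_self_of_mem (hv g).1
  set T : G → H →L[ℂ] H := fun g => v g * y * star (v g) with hT
  have hC : ∀ g, ‖T g‖ ≤ ‖y‖ := fun g => norm_conj_le (hv g).1 y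
  obtain ⟨Z, hZ⟩ := exists_avg hm T hC
  have hTP : ∀ p ∈ P, ∀ g, p * T g = T g * p := by
    intro p hp g
    have h1 := hyP _ (hnorm g p hp).2
    calc p * (v g * y * star (v g)) = v g * ((star (v g) * p * v g) * y) * star (v g) := by
          have : v g * ((star (v g) * p * v g) * y) * star (v g) =
              (v g * star (v g)) * p * (v g * y * star (v g)) := by simp only [mul_assoc]
          rw [this, hvs, one_mul]
      _ = v g * (y * (star (v g) * p * v g)) * star (v g) := by rw [h1]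
      _ = v g * y * star (v g) * p * (v g * star (v g)) := by simp only [mul_assoc]
      _ = v g * y * star (v g) * p := by rw [hvs, mul_one]
  have hTM : ∀ g, T g ∈ M := fun g =>
    mul_mem (mul_mem (hQM _ (hv g).2) hyM) (star_mem (hQM _ (hv g).2))
  have hact : ∀ h g, v h * T g = T (h * g) * v h := by
    intro h g
    obtain ⟨w, hw, hw'⟩ := hmul h g
    have h1 : w * T (h * g) = T (h * g) * w := hTP w hw _
    have h2 : w = v h * v g * star (v (h * g)) := by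
      rw [hw', mul_assoc, hvs, mul_one]
    have h3 : w * star w = 1 := by
      rw [h2, star_mul, star_mul, star_star]
      have : v h * v g * star (v (h * g)) * (v (h * g) * (star (v g) * star (v h))) =
          v h * (v g * (star (v (h * g)) * v (h * g)) * star (v g)) * star (v h) := by
        simp only [mul_assoc]
      rw [this, hsv, mul_one, hvs, mul_one, hvs]
    have h4 : v h * T g * star (v h) = T (h * g) := by
      have h5 : v h * T g * star (v h) = (v h * v g) * y * star (v h * v g) := by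
        rw [hT]
        simp only [star_mul, mul_assoc]
      rw [h5, hw', star_mul]
      have h6 : w * v (h * g) * y * (star (v (h * g)) * star w) = w * T (h * g) * star w := by
        rw [hT]
        simp only [mul_assoc]
      rw [h6, h1, mul_assoc, h3, mul_one]
    rw [← h4, mul_assoc, mul_assoc, hsv, mul_one]
  have hZv : ∀ h, Z * v h = v h * Z := by
    intro h
    ext ξ
    refine ext_inner_right ℂ fun η => ?_
    change ⟪Z (v h ξ), η⟫_ℂ = ⟪v h (Z ξ), η⟫_ℂ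
    rw [hZ, ← ContinuousLinearMap.adjoint_inner_right, hZ]
    have h1 : ∀ g, ⟪T g ξ, (ContinuousLinearMap.adjoint (v h)) η⟫_ℂ = ⟪T (h * g) (v h ξ), η⟫_ℂ := by
      intro g
      rw [ContinuousLinearMap.adjoint_inner_right]
      have h1 := congrArg (fun S : H →L[ℂ] H => S ξ) (hact h g)
      change v h (T g ξ) = T (h * g) (v h ξ) at h1
      rw [h1]
    simp only [h1]
    have hb : ∀ k, ‖⟪T k (v h ξ), η⟫_ℂ‖ ≤ ‖y‖ * ‖v h ξ‖ * ‖η‖ := by
      intro k
      refine (norm_inner_le_norm _ _).trans ?_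
      refine mul_le_mul_of_nonneg_right ?_ (norm_nonneg _)
      exact ((T k).le_opNorm _).trans (mul_le_mul_of_nonneg_right (hC k) (norm_nonneg _))
    unfold cm
    rw [hinv h (fun g => (⟪T g (v h ξ), η⟫_ℂ).re) (bd_re hb),
      hinv h (fun g => (⟪T g (v h ξ), η⟫_ℂ).im) (bd_im hb)]
  refine ⟨Z, ?_, ?_, ?_⟩
  · rw [← M.commutant_commutant, VonNeumannAlgebra.mem_commutant_iff]
    intro r hr
    exact avg_comm hZ fun g => (VonNeumannAlgebra.mem_commutant_iff.1 hr _ (hTM g)).symm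
  · intro n ξ η ε hε
    obtain ⟨z, hz, hz'⟩ := avg_hull hm hC hZ n ξ η ε hε
    refine ⟨z, convexHull_mono ?_ hz, hz'⟩
    rintro _ ⟨g, rfl⟩
    exact ⟨v g, (hv g).1, (hv g).2, rfl⟩
  · exact hgen Z (fun p hp => (avg_comm hZ (hTP p hp)).symm) hZv

/-- bounded limits -/
lemma bdd_limit {M : VonNeumannAlgebra H} {Ω : H}
    (hΩ : Dense {ξ : H | ∃ r ∈ M.commutant, ξ = r Ω}) {C : ℝ} {w : H} {a : ℕ → H →L[ℂ] H}
    (haM : ∀ n, a n ∈ M) (haC : ∀ n, ‖a n‖ ≤ C) (haw : Tendsto (fun n => a n Ω) atTop (𝓝 w)) :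
    ∃ b ∈ M, ∀ κ, Tendsto (fun n => a n κ) atTop (𝓝 (b κ)) := by
  have hC : 0 ≤ C := (norm_nonneg _).trans (haC 0)
  have hcau : ∀ κ : H, CauchySeq fun n => a n κ := by
    intro κ
    rw [Metric.cauchySeq_iff']
    intro ε hε
    obtain ⟨_, hcκ, ⟨c, hc, rfl⟩⟩ := Metric.dense_iff.1 hΩ κ (ε / (4 * (C + 1))) (by positivity)
    rw [Metric.mem_ball, dist_eq_norm] at hcκ
    have h1 : Tendsto (fun n => a n (c Ω)) atTop (𝓝 (c w)) := by
      have h2 := (c.continuous.tendsto w).comp haw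
      refine h2.congr fun n => ?_
      change c (a n Ω) = a n (c Ω)
      exact comm_app hc (haM n) Ω
    obtain ⟨n₀, hn₀⟩ := Metric.cauchySeq_iff'.1 h1.cauchySeq (ε / 2) (by positivity)
    refine ⟨n₀, fun n hn => ?_⟩
    have h3 := hn₀ n hn
    rw [dist_eq_norm] at h3 ⊢
    have h4 : a n κ - a n₀ κ = (a n (c Ω) - a n₀ (c Ω)) - (a n (c Ω - κ) - a n₀ (c Ω - κ)) := by
      rw [map_sub, map_sub]
      abel
    rw [h4]
    have h5 : ∀ m, ‖a m (c Ω - κ)‖ ≤ C * ‖c Ω - κ‖ := fun m =>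
      ((a m).le_opNorm _).trans (mul_le_mul_of_nonneg_right (haC m) (norm_nonneg _))
    have h6 : C * ‖c Ω - κ‖ < ε / 4 := by
      have h7 : (C + 1) * ‖c Ω - κ‖ < ε / 4 := by
        calc (C + 1) * ‖c Ω - κ‖ < (C + 1) * (ε / (4 * (C + 1))) :=
              mul_lt_mul_of_pos_left hcκ (by positivity)
          _ = ε / 4 := by field_simp
      have := norm_nonneg (c Ω - κ)
      nlinarith
    calc _ ≤ ‖a n (c Ω) - a n₀ (c Ω)‖ + (‖a n (c Ω - κ)‖ + ‖a n₀ (c Ω - κ)‖) :=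
          (norm_sub_le _ _).trans (add_le_add le_rfl (norm_sub_le _ _))
      _ < ε := by linarith [h5 n, h5 n₀]
  choose f hf using fun κ => cauchySeq_tendsto_of_complete (hcau κ)
  have hfadd : ∀ κ κ', f (κ + κ') = f κ + f κ' := fun κ κ' =>
    tendsto_nhds_unique (hf (κ + κ')) (((hf κ).add (hf κ')).congr fun n => (map_add _ _ _).symm)
  have hfsmul : ∀ (c : ℂ) κ, f (c • κ) = c • f κ := fun c κ =>
    tendsto_nhds_unique (hf (c • κ)) (((hf κ).const_smul c).congr fun n => (map_smul _ _ _).symm)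
  have hfb : ∀ κ, ‖f κ‖ ≤ C * ‖κ‖ := fun κ =>
    le_of_tendsto' (hf κ).norm fun n =>
      ((a n).le_opNorm _).trans (mul_le_mul_of_nonneg_right (haC n) (norm_nonneg _))
  set b : H →L[ℂ] H := LinearMap.mkContinuous
    { toFun := f, map_add' := hfadd, map_smul' := hfsmul } C hfb with hb
  have hbf : ∀ κ, b κ = f κ := fun κ => rfl
  refine ⟨b, ?_, fun κ => ?_⟩
  · rw [← M.commutant_commutant, VonNeumannAlgebra.mem_commutant_iff]
    intro r hr
    ext κ
    rw [mul_app, mul_app, hbf, hbf]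
    refine tendsto_nhds_unique ((r.continuous.tendsto _).comp (hf κ)) ?_
    refine (hf (r κ)).congr fun n => ?_
    exact (comm_app hr (haM n) κ).symm
  · rw [hbf]
    exact hf κ

/-- averaging over a semigroup of unitaries in the centralizer of a faithful vector state -/
lemma stepA {M P Q : VonNeumannAlgebra H} (hQM : ∀ a ∈ Q, a ∈ M) {Ω : H}
    (hΩ : Dense {ξ : H | ∃ r ∈ M.commutant, ξ = r Ω}) {G : Set (H →L[ℂ] H)} (h1G : 1 ∈ G)
    (hmG : ∀ u ∈ G, ∀ w ∈ G, u * w ∈ G) (hG : ∀ u ∈ G, u ∈ unitary (H →L[ℂ] H) ∧ u ∈ Q)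
    (hnorm : ∀ u ∈ G, ∀ p ∈ P, star u * p * u ∈ P)
    (hcen : ∀ u ∈ G, ∀ x ∈ M, ⟪Ω, (u * x) Ω⟫_ℂ = ⟪Ω, (x * u) Ω⟫_ℂ)
    (hgen : ∀ T : H →L[ℂ] H, (∀ p ∈ P, T * p = p * T) → (∀ u ∈ G, T * u = u * T) →
      ∀ q ∈ Q, T * q = q * T) {x : H →L[ℂ] H} (hx : x ∈ M) (hxP : ∀ p ∈ P, x * p = p * x) :
    ∃ y ∈ M, y ∈ CC Q x ∧ ∀ a ∈ Q, y * a = a * y := by
  have hsep : ∀ a ∈ M, ∀ b ∈ M, a Ω = b Ω → a = b := by
    intro a ha b hb hab
    have h1 : {ξ : H | a ξ = b ξ} = Set.univ := by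
      have h2 : IsClosed {ξ : H | a ξ = b ξ} := isClosed_eq a.continuous b.continuous
      rw [← h2.closure_eq]
      refine (hΩ.mono ?_).closure_eq
      rintro _ ⟨r, hr, rfl⟩
      change a (r Ω) = b (r Ω)
      rw [← comm_app hr ha, ← comm_app hr hb, hab]
    ext ξ
    exact (h1 ▸ Set.mem_univ ξ : ξ ∈ {ξ : H | a ξ = b ξ})
  have hiso : ∀ u ∈ G, ∀ a ∈ M, ‖(u * a * star u) Ω‖ = ‖a Ω‖ := by
    intro u huG a ha
    have hsu : star u * u = 1 := Unitary.star_mul_self_of_mem (hG u huG).1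
    have huM : u ∈ M := hQM u (hG u huG).2
    have h1 : ⟪(u * a * star u) Ω, (u * a * star u) Ω⟫_ℂ = ⟪a Ω, a Ω⟫_ℂ := by
      rw [← inner_star, ← mul_app, ← inner_star a, ← mul_app]
      have e1 : star (u * a * star u) * (u * a * star u) = u * (star a * a * star u) := by
        rw [star_mul, star_mul, star_star]
        calc u * (star a * star u) * (u * a * star u) =
              u * (star a * (star u * u) * a * star u) := by simp only [mul_assoc]
          _ = u * (star a * a * star u) := by rw [hsu, mul_one]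
      rw [e1, hcen u huG _ (mul_mem (mul_mem (star_mem ha) ha) (star_mem huM)), mul_assoc,
        hsu, mul_one]
    rw [inner_self_eq_norm_sq_to_K, inner_self_eq_norm_sq_to_K] at h1
    have h3 : ‖(u * a * star u) Ω‖ ^ 2 = ‖a Ω‖ ^ 2 := by exact_mod_cast h1
    exact (pow_left_inj₀ (norm_nonneg _) (norm_nonneg _) (by norm_num)).1 h3
  -- the hull over `G`
  set K : Set (H →L[ℂ] H) := convexHull ℝ {T | ∃ u ∈ G, T = u * x * star u} with hK
  have hKQ : K ⊆ hullOf Q x := by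
    refine convexHull_mono ?_
    rintro _ ⟨u, hu, rfl⟩
    exact ⟨u, (hG u hu).1, (hG u hu).2, rfl⟩
  have hKconj : ∀ u ∈ G, ∀ y ∈ K, u * y * star u ∈ K := by
    intro u hu
    have h1 : K ⊆ {y | u * y * star u ∈ K} := by
      apply convexHull_min
      · rintro _ ⟨v, hv, rfl⟩
        refine subset_convexHull ℝ _ ⟨u * v, hmG u hu v hv, ?_⟩
        rw [star_mul]
        simp only [mul_assoc]
      · intro y hy y' hy' a b ha hb hab
        simp only [Set.mem_ofPred_eq] at hy hy' ⊢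
        have e1 : u * (a • y + b • y') * star u =
            a • (u * y * star u) + b • (u * y' * star u) := by
          rw [mul_add, add_mul, mul_smul_comm, mul_smul_comm, smul_mul_assoc, smul_mul_assoc]
        rw [e1]
        exact convex_convexHull ℝ _ hy hy' ha hb hab
    exact fun y hy => h1 hy
  -- its elements are in `M`, bounded by `‖x‖`, and commute with `P`
  have hhull : ∀ y ∈ K, y ∈ M ∧ ‖y‖ ≤ ‖x‖ ∧ ∀ p ∈ P, y * p = p * y := by
    have : K ⊆ {y | y ∈ M ∧ ‖y‖ ≤ ‖x‖ ∧ ∀ p ∈ P, y * p = p * y} := by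
      apply convexHull_min
      · rintro _ ⟨u, hu, rfl⟩
        have huM : u ∈ M := hQM u (hG u hu).2
        refine ⟨mul_mem (mul_mem huM hx) (star_mem huM), norm_conj_le (hG u hu).1 x, ?_⟩
        intro p hp
        have hus : u * star u = 1 := Unitary.mul_star_self_of_mem (hG u hu).1
        have h1 := hxP _ (hnorm u hu p hp)
        symm
        calc p * (u * x * star u) = u * ((star u * p * u) * x) * star u := by
              have : u * ((star u * p * u) * x) * star u =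
                  (u * star u) * p * (u * x * star u) := by simp only [mul_assoc]
              rw [this, hus, one_mul]
          _ = u * (x * (star u * p * u)) * star u := by rw [h1]
          _ = u * x * star u * p * (u * star u) := by simp only [mul_assoc]
          _ = u * x * star u * p := by rw [hus, mul_one]
      · rintro b ⟨hb, hb', hb2⟩ c ⟨hc, hc', hc2⟩ s t hs ht hst
        refine ⟨add_mem (smul_memN M (s : ℂ) hb) (smul_memN M (t : ℂ) hc), ?_, ?_⟩
        · calc ‖s • b + t • c‖ ≤ s * ‖b‖ + t * ‖c‖ := by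
                refine (norm_add_le _ _).trans ?_
                rw [norm_smul, norm_smul, Real.norm_eq_abs,
                  Real.norm_eq_abs, abs_of_nonneg hs, abs_of_nonneg ht]
            _ ≤ s * ‖x‖ + t * ‖x‖ := by gcongr
            _ = ‖x‖ := by rw [← add_mul, hst, one_mul]
        · intro p hp
          rw [add_mul, mul_add, smul_mul_assoc, smul_mul_assoc, mul_smul_comm, mul_smul_comm,
            hb2 p hp, hc2 p hp]
    exact fun y hy => this hy
  let _ : InnerProductSpace ℝ H := InnerProductSpace.rclikeToReal ℂ H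
  set X : Set H := (fun y : H →L[ℂ] H => y Ω) '' K with hX
  have hXne : X.Nonempty :=
    ⟨_, _, subset_convexHull ℝ _ ⟨1, h1G, rfl⟩, rfl⟩
  have hXconv : Convex ℝ X := by
    rintro _ ⟨b, hb, rfl⟩ _ ⟨c, hc, rfl⟩ s t hs ht hst
    exact ⟨s • b + t • c, convex_convexHull ℝ _ hb hc hs ht hst, rfl⟩
  obtain ⟨w, hw, hw'⟩ := exists_norm_eq_iInf_of_complete_convex hXne.closure
    isClosed_closure.isComplete hXconv.closure 0
  have hmin := (norm_eq_iInf_iff_real_inner_le_zero hXconv.closure hw).1 hw'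
  obtain ⟨ξ, hξ, hξw⟩ := mem_closure_iff_seq_limit.1 hw
  choose a haX haΩ using hξ
  have haw : Tendsto (fun n => a n Ω) atTop (𝓝 w) := hξw.congr fun n => (haΩ n).symm
  obtain ⟨b, hbM, hb⟩ := bdd_limit hΩ (fun n => (hhull _ (haX n)).1)
    (fun n => (hhull _ (haX n)).2.1) haw
  have hbw : b Ω = w := tendsto_nhds_unique (hb Ω) haw
  have hbP : ∀ p ∈ P, b * p = p * b := by
    intro p hp
    ext κ
    refine tendsto_nhds_unique (hb (p κ)) (((p.continuous.tendsto _).comp (hb κ)).congr fun n => ?_)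
    have h1 := congrArg (fun S : H →L[ℂ] H => S κ) ((hhull _ (haX n)).2.2 p hp)
    exact h1.symm
  refine ⟨b, hbM, ?_, hgen b hbP ?_⟩
  · intro n ξ η ε hε
    have h1 : ∀ i : Fin n, ∀ᶠ k in atTop, ‖⟪η i, (a k - b) (ξ i)⟫_ℂ‖ < ε := by
      intro i
      have h2 : Tendsto (fun k => ‖⟪η i, (a k - b) (ξ i)⟫_ℂ‖) atTop (𝓝 0) := by
        have h3 : Tendsto (fun k => ⟪η i, a k (ξ i) - b (ξ i)⟫_ℂ) atTop
            (𝓝 ⟪η i, b (ξ i) - b (ξ i)⟫_ℂ) :=
          tendsto_const_nhds.inner ((hb (ξ i)).sub tendsto_const_nhds)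
        rw [sub_self, inner_zero_right] at h3
        have h4 := h3.norm
        rw [norm_zero] at h4
        exact h4
      exact h2.eventually_lt_const hε
    obtain ⟨k, hk⟩ := (eventually_all.2 h1).exists
    exact ⟨a k, hKQ (haX k), hk⟩
  · intro u huG
    have hcl : (u * b * star u) Ω ∈ closure X := by
      refine mem_closure_of_tendsto (f := fun n => (u * a n * star u) Ω) (b := atTop) ?_
        (Eventually.of_forall fun n => ⟨_, hKconj u huG _ (haX n), rfl⟩)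
      have h1 : Tendsto (fun n => u (a n ((star u) Ω))) atTop (𝓝 (u (b ((star u) Ω)))) :=
        (u.continuous.tendsto _).comp (hb _)
      exact h1
    have h1 := hmin _ hcl
    have h2 : ‖(u * b * star u) Ω‖ = ‖w‖ := by rw [hiso u huG b hbM, hbw]
    have h3 : ‖(u * b * star u) Ω - w‖ ^ 2 ≤ 0 := by
      have h4 : ‖(u * b * star u) Ω - w‖ ^ 2 =
        ‖(u * b * star u) Ω‖ ^ 2 - 2 * ⟪(u * b * star u) Ω, w⟫_ℝ + ‖w‖ ^ 2 := norm_sub_sq_real _ _
      have h5 : ⟪(0 : H) - w, (u * b * star u) Ω - w⟫_ℝ =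
          ‖w‖ ^ 2 - ⟪(u * b * star u) Ω, w⟫_ℝ := by
        rw [zero_sub, inner_neg_left, inner_sub_right, real_inner_self_eq_norm_sq, real_inner_comm]
        ring
      rw [h5] at h1
      rw [h4, h2]
      linarith
    have h6 : ‖(u * b * star u) Ω - w‖ = 0 := by
      have := norm_nonneg ((u * b * star u) Ω - w)
      nlinarith
    have h7 : (u * b * star u) Ω = b Ω := by
      rw [hbw]
      exact sub_eq_zero.1 (norm_eq_zero.1 h6)
    have huM : u ∈ M := hQM u (hG u huG).2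
    have h8 := hsep _ (mul_mem (mul_mem huM hbM) (star_mem huM)) _ hbM h7
    calc b * u = u * b * star u * u := by rw [h8]
      _ = u * b * (star u * u) := by simp only [mul_assoc]
      _ = u * b := by rw [Unitary.star_mul_self_of_mem (hG u huG).1, mul_one]

theorem main {M A Q : VonNeumannAlgebra H} {S : Set H} (hS : ∀ Ω ∈ S, Ω ∈ SepVec M)
    (hQM : ∀ a ∈ Q, a ∈ M)
    (hA : ∀ Ω ∈ S, ∀ u ∈ Q, (∀ x ∈ A, ⟪Ω, (u * x) Ω⟫_ℂ = ⟪Ω, (x * u) Ω⟫_ℂ) →
      ∀ x ∈ M, ⟪Ω, (u * x) Ω⟫_ℂ = ⟪Ω, (x * u) Ω⟫_ℂ)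
    (hext : Ext S A Q) {x : H →L[ℂ] H} (hx : x ∈ M) :
    ∃ y ∈ M, y ∈ CC Q x ∧ ∀ a ∈ Q, y * a = a * y := by
  induction hext with
  | scalars hP =>
    refine ⟨x, hx, hull_sub_CC (subset_convexHull ℝ _ ⟨1, one_mem _, one_mem _, by simp⟩), ?_⟩
    intro a ha
    obtain ⟨c, rfl⟩ := hP a ha
    simp
  | amen _ hPQ ih =>
    obtain ⟨y, hyM, hy, hyP⟩ := ih (fun a ha => hQM a (hPQ.1 a ha))
      (fun Ω hΩ u hu => hA Ω hΩ u (hPQ.1 u hu))
    obtain ⟨z, hzM, hz, hzQ⟩ := stepB hPQ hQM hyM hyP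
    exact ⟨z, hzM, CC_trans (CC_mono hPQ.1 hy) hz, hzQ⟩
  | inv _ hPQ ih =>
    obtain ⟨y, hyM, hy, hyP⟩ := ih (fun a ha => hQM a (hPQ.1 a ha))
      (fun Ω hΩ u hu => hA Ω hΩ u (hPQ.1 u hu))
    obtain ⟨hsub, Ω, hΩ, G, h1G, hmG, hG, hnorm, hcen, hgen⟩ := hPQ
    obtain ⟨z, hzM, hz, hzQ⟩ := stepA hQM (hS Ω hΩ) h1G hmG hG hnorm
      (fun u hu => hA Ω hΩ u (hG u hu).2 (hcen u hu)) hgen hyM hyP
    exact ⟨z, hzM, CC_trans (CC_mono hsub hy) hz, hzQ⟩
  | union _ hU ih =>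
    exact stepC hU.1 hU.2.1 hU.2.2 fun i => ih i (fun a ha => hQM a (hU.2.1 i a ha))
      (fun Ω hΩ u hu => hA Ω hΩ u (hU.2.1 i u hu))

lemma wrdp_of {M A N : VonNeumannAlgebra H} (hNM : IrredFactors N M) {S : Set H}
    (hS : ∀ Ω ∈ S, Ω ∈ SepVec M)
    (hA : ∀ Ω ∈ S, ∀ u ∈ N, (∀ x ∈ A, ⟪Ω, (u * x) Ω⟫_ℂ = ⟪Ω, (x * u) Ω⟫_ℂ) →
      ∀ x ∈ M, ⟪Ω, (u * x) Ω⟫_ℂ = ⟪Ω, (x * u) Ω⟫_ℂ)
    (hext : Ext S A N) : WRDP N M := by
  intro x hx
  obtain ⟨y, hyM, hy, hyN⟩ := main hS hNM.1 hA hext hx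
  obtain ⟨c, hc⟩ := hNM.2.2.2 y hyM hyN
  rw [hc] at hy
  exact ⟨c, hy⟩

/-- the main theorem -/
theorem wrdp (N M : VonNeumannAlgebra H) (hNM : IrredFactors N M) :
    (Ext (SepVec M) M N → WRDP N M) ∧
    ∀ E : (H →L[ℂ] H) → (H →L[ℂ] H), Bimod N M E → Ext (InvVec M E) N N → WRDP N M := by
  refine ⟨fun h => wrdp_of hNM (fun Ω hΩ => hΩ) (fun _ _ _ _ h => h) h, fun E hE h => ?_⟩
  refine wrdp_of hNM (fun Ω hΩ => hΩ.1) (fun Ω hΩ u hu hc x hx => ?_) h
  have h1 := hE x hx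
  rw [← hΩ.2 _ (mul_mem (hNM.1 u hu) hx), ← hΩ.2 _ (mul_mem hx (hNM.1 u hu)), (h1.2 u hu).1,
    (h1.2 u hu).2]
  exact hc _ h1.1

end Pool.Agent.Q191.WX
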